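import Pool.Agent.U237.LI.UB
import Pool.Agent.U237.NF.M
import Pool.Agent.U461.LI.COS
import Pool.Agent.U109.LI.MU
import Pool.Agent.TH823.MRS.Fun
import Pool.Agent.R512.G.Expo

/-!
# Explicit constants for the local Fourier uniformity of the Liouville and Möbius functions (natural averages)
-/

set_option autoImplicit false
set_option maxHeartbeats 1000000

open Filter Topology Finset MeasureTheory

namespace Pool.Agent.Results.MP_a9a441_nt.ExplicitConstants

/-- `f` is completely multiplicative with values `±1` on the positive integers (and `f 0 = 0`) -/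
structure CompletelyMultiplicative (f : ℕ → ℤ) : Prop where
  zero : f 0 = 0
  mul : ∀ m n : ℕ, f (m * n) = f m * f n
  val : ∀ n : ℕ, 0 < n → f n = 1 ∨ f n = -1

open scoped Classical in
/-- `f` pretends to be no real Dirichlet character: for each `χ` with `χ ^ 2 = 1` (of any modulus) the sum of the `1 / p`
over the primes `p` with `f p ≠ χ p` diverges -/
def NonPretentious (f : ℕ → ℤ) : Prop :=
  ∀ Q : ℕ, 0 < Q → ∀ χ : DirichletCharacter ℂ Q, χ ^ 2 = 1 →
    ¬ Summable (fun p : ℕ => if p.Prime ∧ (f p : ℂ) ≠ χ (p : ZMod Q) then 1 / (p : ℝ) else 0)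

/-- the Liouville function, the Möbius function, and all completely multiplicative functions with values `±1`
which pretend to be no real Dirichlet character -/
def Weight (h : ℕ → ℤ) : Prop :=
  (h = fun n => (-1) ^ ArithmeticFunction.cardFactors n) ∨ (h = fun n => ArithmeticFunction.moebius n) ∨
    (CompletelyMultiplicative h ∧ NonPretentious h)

/-- `sup_α |(1 / (N + 1)) ∑_{m ≤ n ≤ m + N} h(n) exp(2 π i n α)|` -/
noncomputable def localSup (h : ℕ → ℤ) (N m : ℕ) : ℝ :=
  ⨆ α : ℝ, ‖(1 / ((N : ℂ) + 1)) * ∑ n ∈ Icc m (m + N), (h n : ℂ) * Complex.exp (2 * Real.pi * Complex.I * (n * α))‖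

/-- `Λ(N)`: the limes superior of the mean of `localSup h N m` over `m = 1, …, M` as `M → ∞` -/
noncomputable def meanSup (h : ℕ → ℤ) (N : ℕ) : ℝ :=
  limsup (fun M : ℕ => (1 / (M : ℝ)) * ∑ m ∈ Icc 1 M, localSup h N m) atTop

open Pool.Agent.U237.NF.Lite (ExpoSmall)
open Pool.Agent.W24.Katai (Mul1)
open Pool.Agent.U237.LI (UpperBd WS)
open Pool.Agent.H807R2.Dav (ee norm_ee ee_add)

theorem weight_good {h : ℕ → ℤ} (hw : Weight h) : Mul1 (fun n => (h n : ℂ)) ∧ ExpoSmall (fun n => (h n : ℂ)) := by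
  rcases hw with rfl | rfl | ⟨hc, hn⟩
  · refine ⟨⟨fun n => ?_, fun m n hmn => ?_⟩, ?_⟩
    · rw [Complex.norm_intCast, Int.cast_pow, abs_pow]
      simp
    · by_cases hm : m = 0
      · subst hm
        rw [Nat.coprime_zero_left] at hmn
        subst hmn
        simp
      by_cases hn0 : n = 0
      · subst hn0
        rw [Nat.coprime_zero_right] at hmn
        subst hmn
        simp
      beta_reduce
      rw [ArithmeticFunction.cardFactors_mul hm hn0, pow_add]
      push_cast
      rfl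
    · exact Pool.Agent.TH823.MRS.expo_lam
  · refine ⟨⟨fun n => ?_, fun m n hmn => ?_⟩, ?_⟩
    · rw [Complex.norm_intCast]
      exact_mod_cast ArithmeticFunction.abs_moebius_le_one
    · beta_reduce
      rw [ArithmeticFunction.isMultiplicative_moebius.map_mul_of_coprime hmn]
      push_cast
      rfl
    · exact Pool.Agent.TH823.MRS.expo_mob
  · have h1 : h 1 = 1 := by
      have e := hc.mul 1 1
      rcases hc.val 1 one_pos with h2 | h2
      · exact h2
      · rw [mul_one, h2] at e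
        norm_num at e
    have hcm : Pool.Agent.Y872.L.CM h := ⟨hc.zero, h1, hc.mul, hc.val⟩
    refine ⟨⟨fun n => ?_, fun m n _ => ?_⟩, ?_⟩
    · rw [Complex.norm_intCast]
      rcases Nat.eq_zero_or_pos n with h0 | h0
      · rw [h0, hc.zero]; simp
      · rcases hc.val n h0 with h2 | h2 <;> rw [h2] <;> simp
    · beta_reduce
      rw [hc.mul]
      push_cast
      rfl
    · exact Pool.Agent.R512.G.expoS hcm hn

theorem val_eq (h : ℕ → ℤ) (N m : ℕ) (α : ℝ) :
    ‖(1 / ((N : ℂ) + 1)) * ∑ n ∈ Icc m (m + N), (h n : ℂ) * Complex.exp (2 * Real.pi * Complex.I * (n * α))‖ =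
      1 / ((N : ℝ) + 1) * ‖WS (fun n => (h n : ℂ)) (N + 1) m α‖ := by
  have h1 : ∑ n ∈ Icc m (m + N), (h n : ℂ) * Complex.exp (2 * Real.pi * Complex.I * (n * α)) =
      ee ((m : ℝ) * α) * WS (fun n => (h n : ℂ)) (N + 1) m α := by
    unfold Pool.Agent.U237.LI.WS
    have h2 : Icc m (m + N) = Ico m (m + (N + 1)) := by
      ext x
      rw [Finset.mem_Icc, Finset.mem_Ico]
      omega
    rw [h2, Finset.sum_Ico_eq_sum_range, Nat.add_sub_cancel_left, Finset.mul_sum]
    refine Finset.sum_congr rfl (fun i _ => ?_)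
    have h3 : Complex.exp (2 * Real.pi * Complex.I * (((m + i : ℕ) : ℂ) * α)) = ee ((m : ℝ) * α) * ee ((i : ℝ) * α) := by
      rw [← ee_add]
      unfold Pool.Agent.H807R2.Dav.ee
      congr 1
      push_cast
      ring
    rw [h3]
    ring
  rw [h1, norm_mul, norm_mul, norm_ee, one_mul, norm_div, norm_one]
  congr 2
  have h4 : ((N : ℂ) + 1) = (((N : ℝ) + 1 : ℝ) : ℂ) := by push_cast; rfl
  rw [h4, Complex.norm_real, Real.norm_eq_abs, abs_of_nonneg (by positivity)]

theorem localSup_nonneg (h : ℕ → ℤ) (N m : ℕ) : 0 ≤ localSup h N m :=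
  Real.iSup_nonneg (fun _ => norm_nonneg _)

/-- from the choices of the frequencies to the suprema -/
theorem meanSup_le {h : ℕ → ℤ} {s : ℝ} (hs : 0 ≤ s) (hU : UpperBd (fun n => (h n : ℂ)) Set.univ s) (ε : ℝ) (hε : 0 < ε) :
    ∃ N₀ : ℕ, ∀ N : ℕ, N₀ ≤ N → meanSup h N ≤ s + ε := by
  obtain ⟨H0, hH0⟩ := hU (ε / 4) (by positivity)
  refine ⟨H0, fun N hN => ?_⟩
  obtain ⟨M0, hM0⟩ := hH0 (N + 1) (by omega)
  have hch : ∀ m : ℕ, ∃ α : ℝ, localSup h N m - ε / 4 < 1 / ((N : ℝ) + 1) * ‖WS (fun n => (h n : ℂ)) (N + 1) m α‖ := by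
    intro m
    have h1 : localSup h N m - ε / 4 < localSup h N m := by linarith
    obtain ⟨α, hα⟩ := exists_lt_of_lt_ciSup h1
    rw [val_eq] at hα
    exact ⟨α, hα⟩
  choose α hα using hch
  unfold meanSup
  apply Filter.limsup_le_of_le
  · apply Filter.IsBoundedUnder.isCoboundedUnder_le
    refine isBoundedUnder_of ⟨0, fun M => ?_⟩
    have := Finset.sum_nonneg (s := Icc 1 M) (fun m _ => localSup_nonneg h N m)
    show 0 ≤ _
    positivity
  obtain ⟨M1, hM1⟩ := exists_nat_ge ((s + ε / 4) / (ε / 4))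
  filter_upwards [eventually_ge_atTop (max M0 (max M1 1))] with M hM
  have hMM0 : M0 ≤ M := (le_max_left _ _).trans hM
  have hMM1 : M1 ≤ M := (le_max_left _ _).trans ((le_max_right _ _).trans hM)
  have hMM2 : 1 ≤ M := (le_max_right _ _).trans ((le_max_right _ _).trans hM)
  have hM' : (0:ℝ) < M := by exact_mod_cast hMM2
  have hN' : (0:ℝ) < (N:ℝ) + 1 := by positivity
  have h1 := hM0 (M + 1) (by omega) α (fun n => Set.mem_univ _)
  have h2 : ∑ m ∈ Icc 1 M, localSup h N m ≤
      ∑ m ∈ Icc 1 M, (1 / ((N : ℝ) + 1) * ‖WS (fun n => (h n : ℂ)) (N + 1) m (α m)‖ + ε / 4) := by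
    refine Finset.sum_le_sum (fun m _ => ?_)
    linarith [hα m]
  rw [Finset.sum_add_distrib, ← Finset.mul_sum, Finset.sum_const, Nat.card_Icc, Nat.add_sub_cancel, nsmul_eq_mul] at h2
  have h3 : ∑ m ∈ Icc 1 M, ‖WS (fun n => (h n : ℂ)) (N + 1) m (α m)‖ ≤
      ∑ m ∈ range (M + 1), ‖WS (fun n => (h n : ℂ)) (N + 1) m (α m)‖ := by
    apply Finset.sum_le_sum_of_subset_of_nonneg
    · intro x hx
      rw [Finset.mem_Icc] at hx
      rw [Finset.mem_range]
      omega
    · intro _ _ _
      exact norm_nonneg _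
  have h4 : 1 / ((N : ℝ) + 1) * ∑ m ∈ Icc 1 M, ‖WS (fun n => (h n : ℂ)) (N + 1) m (α m)‖ ≤
      (s + ε / 4) * ((M : ℝ) + 1) := by
    have h5 := h3.trans h1
    push_cast at h5
    rw [one_div, inv_mul_le_iff₀ hN']
    refine h5.trans (le_of_eq ?_)
    ring
  have h6 : (s + ε / 4) ≤ ε / 4 * M := by
    have h7 : (s + ε / 4) / (ε / 4) ≤ M := hM1.trans (by exact_mod_cast hMM1)
    rw [div_le_iff₀ (by positivity)] at h7
    linarith
  rw [one_div, inv_mul_le_iff₀ hM']
  nlinarith

/-- **Explicit constants for local Fourier uniformity.** For the Liouville function, the Möbius function and all completely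
multiplicative functions with values `±1` which pretend to be no real Dirichlet character, the limes superior of `Λ(N)` as
`N → ∞` is at most `2 / π`; for the Möbius function it is at most `12 / π³`. -/
theorem result (h : ℕ → ℤ) (hw : Weight h) :
    (∀ ε : ℝ, 0 < ε → ∃ N₀ : ℕ, ∀ N : ℕ, N₀ ≤ N → meanSup h N ≤ 2 / Real.pi + ε) ∧
    ((h = fun n => ArithmeticFunction.moebius n) →
      ∀ ε : ℝ, 0 < ε → ∃ N₀ : ℕ, ∀ N : ℕ, N₀ ≤ N → meanSup h N ≤ 12 / Real.pi ^ 3 + ε) := by
  have hg := weight_good hw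
  have hpi := Real.pi_pos
  refine ⟨fun ε hε => ?_, fun hmu ε hε => ?_⟩
  · refine meanSup_le (by positivity) (Pool.Agent.U237.LI.ub_cos Pool.Agent.U237.NF.M.t_M Pool.Agent.U461.LI.t_COS
      (fun n => ?_) hg.2) ε hε
    have h1 := hg.1.1 n
    beta_reduce at h1
    rw [Complex.norm_intCast] at h1
    exact h1
  · subst hmu
    exact meanSup_le (by positivity) (Pool.Agent.U237.LI.ub_mu Pool.Agent.U237.NF.M.t_M
      (Pool.Agent.U109.LI.t_MU Pool.Agent.U461.LI.t_COS) hg.2) ε hε

end Pool.Agent.Results.MP_a9a441_nt.ExplicitConstants
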